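import Pool.Agent.helper12.OB.SpecC

set_option autoImplicit false

/-!
# Project ob, row LSA: the number of the commutators
-/

namespace Pool.Agent.OB

open Pool.Agent.helper58.DC Pool.Agent.DI Pool.Agent.GR

theorem LSA (hSCH : SCH_stmt) (hB2 : B2_stmt) : LSA_stmt := by
  intro G _ _ L w hw
  classical
  let _ : Fintype G := Fintype.ofFinite G
  have hw' : ∀ h : G, w h = ∑ z : G × G, if z.1 ∈ L ∧ z.2 ∈ L ∧ z.1 * z.2 * z.1⁻¹ * z.2⁻¹ = h
      then (1 : ℂ) else 0 := by
    intro h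
    rw [hw h, Nat.card_eq_fintype_card, Fintype.card_subtype, Finset.card_filter]
    push_cast
    rfl
  refine ⟨⟨?_, ?_⟩, ?_⟩
  · intro l hl x
    rw [hw, hw]
    congr 1
    refine Nat.card_congr ?_
    refine
      { toFun := fun z => ⟨(l⁻¹ * z.1.1 * l, l⁻¹ * z.1.2 * l), ?_⟩
        invFun := fun z => ⟨(l * z.1.1 * l⁻¹, l * z.1.2 * l⁻¹), ?_⟩
        left_inv := ?_
        right_inv := ?_ }
    · obtain ⟨⟨a, b⟩, h1, h2, h3⟩ := z
      simp only at h1 h2 h3
      refine ⟨L.mul_mem (L.mul_mem (L.inv_mem hl) h1) hl,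
        L.mul_mem (L.mul_mem (L.inv_mem hl) h2) hl, ?_⟩
      simp only
      have h4 : x = l⁻¹ * (l * x * l⁻¹) * l := by group
      rw [h4, ← h3]
      group
    · obtain ⟨⟨a, b⟩, h1, h2, h3⟩ := z
      simp only at h1 h2 h3
      refine ⟨L.mul_mem (L.mul_mem hl h1) (L.inv_mem hl),
        L.mul_mem (L.mul_mem hl h2) (L.inv_mem hl), ?_⟩
      simp only
      rw [← h3]
      group
    · rintro ⟨⟨a, b⟩, h⟩
      simp only [Subtype.mk.injEq, Prod.mk.injEq]
      constructor <;> group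
    · rintro ⟨⟨a, b⟩, h⟩
      simp only [Subtype.mk.injEq, Prod.mk.injEq]
      constructor <;> group
  · intro x hx
    rw [hw']
    refine Finset.sum_eq_zero fun z _ => ?_
    rw [if_neg]
    rintro ⟨h1, h2, h3⟩
    apply hx
    rw [← h3]
    exact L.mul_mem (L.mul_mem (L.mul_mem h1 h2) (L.inv_mem h1)) (L.inv_mem h2)
  · intro ψ hψ
    obtain ⟨hfin, hI⟩ := hB2 G L
    obtain ⟨⟨n, hn0, hn1, -⟩, hcl, -, hz, hort⟩ := hI ψ hψ
    have hψ1 : ψ 1 ≠ 0 := by
      rw [hn1]
      exact_mod_cast hn0.ne'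
    have h1 : ∑ x : G, w x * ψ x = ∑ y : G, ∑ t : G,
        if t ∈ L ∧ y ∈ L then ψ (t * y * t⁻¹ * y⁻¹) else 0 := by
      have h2 : ∀ x : G, w x * ψ x = ∑ z : G × G,
          if z.1 ∈ L ∧ z.2 ∈ L ∧ z.1 * z.2 * z.1⁻¹ * z.2⁻¹ = x then ψ x else 0 := by
        intro x
        rw [hw', Finset.sum_mul]
        refine Finset.sum_congr rfl fun z _ => ?_
        rw [ite_mul, one_mul, zero_mul]
      simp only [h2]
      rw [Finset.sum_comm, Fintype.sum_prod_type, Finset.sum_comm]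
      refine Finset.sum_congr rfl fun y _ => Finset.sum_congr rfl fun t _ => ?_
      by_cases h3 : t ∈ L ∧ y ∈ L
      · rw [if_pos h3]
        have h4 : ∀ x : G, (if t ∈ L ∧ y ∈ L ∧ t * y * t⁻¹ * y⁻¹ = x then ψ x else 0) =
            if t * y * t⁻¹ * y⁻¹ = x then ψ x else 0 := by
          intro x
          simp only [h3.1, h3.2, true_and]
        simp only [h4]
        rw [Finset.sum_ite_eq]
        simp
      · rw [if_neg h3]
        refine Finset.sum_eq_zero fun x _ => ?_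
        rw [if_neg]
        rintro ⟨h5, h6, -⟩
        exact h3 ⟨h5, h6⟩
    have h5 : ∀ y ∈ L, ∑ t : G, (if t ∈ L ∧ y ∈ L then ψ (t * y * t⁻¹ * y⁻¹) else 0) =
        (Nat.card L : ℂ) * ψ y⁻¹ * ψ y / ψ 1 := by
      intro y hy
      have h6 := hSCH G L ψ hψ y⁻¹ (L.inv_mem hy) y
      rw [eq_div_iff hψ1, ← h6, mul_comm]
      congr 1
      have h7 : ∑ᶠ t ∈ (L : Set G), ψ (y⁻¹ * (t * y * t⁻¹)) =
          ∑ t : G, if t ∈ L then ψ (y⁻¹ * (t * y * t⁻¹)) else 0 := by
        rw [finsum_mem_def, finsum_eq_sum_of_fintype]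
        refine Finset.sum_congr rfl fun t _ => ?_
        by_cases ht : t ∈ L
        · rw [if_pos ht, Set.indicator_of_mem (by exact ht)]
        · rw [if_neg ht, Set.indicator_of_notMem (by exact ht)]
      rw [h7]
      refine Finset.sum_congr rfl fun t _ => ?_
      by_cases ht : t ∈ L
      · rw [if_pos ⟨ht, hy⟩, if_pos ht]
        have h8 := hcl (t * y * t⁻¹ * y⁻¹) y⁻¹ (L.inv_mem hy)
        rw [← h8]
        congr 1
        group
      · rw [if_neg ht, if_neg (fun h => ht h.1)]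
    have h9 : ∑ x : G, w x * ψ x = (Nat.card L : ℂ) ^ 2 / ψ 1 := by
      rw [h1]
      have h10 : ∀ y : G, (∑ t : G, if t ∈ L ∧ y ∈ L then ψ (t * y * t⁻¹ * y⁻¹) else 0) =
          (Nat.card L : ℂ) / ψ 1 * (ψ y * ψ y⁻¹) := by
        intro y
        by_cases hy : y ∈ L
        · rw [h5 y hy]
          ring
        · rw [hz y hy, zero_mul, mul_zero]
          refine Finset.sum_eq_zero fun t _ => ?_
          rw [if_neg (fun h => hy h.2)]
      simp only [h10]
      rw [← Finset.mul_sum]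
      have h11 := hort ψ hψ
      rw [if_pos rfl, finsum_eq_sum_of_fintype] at h11
      rw [h11]
      ring
    unfold cc
    rw [finsum_eq_sum_of_fintype, h9]
    field_simp

end Pool.Agent.OB
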