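import Pool.Agent.helper12.OB.SpecC

set_option autoImplicit false

/-!
# Project ob, row LSB: the value at `1` of a class function of `L`
-/

namespace Pool.Agent.OB

open Pool.Agent.helper58.DC Pool.Agent.DI Pool.Agent.GR

theorem LSB (hEXP : EXP_stmt) (hIDM : IDM_stmt) (hCVF : CVF_stmt) (hCCI : CCI_stmt)
    (hB2 : B2_stmt) : LSB_stmt := by
  intro G _ _ L z hz
  classical
  let _ : Fintype G := Fintype.ofFinite G
  obtain ⟨-, -, -, hdl, -, -, -, hCFs, -, hCFdl, -, -⟩ := hCVF G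
  obtain ⟨hfin, hI⟩ := hB2 G L
  obtain ⟨he1, he2, -, -⟩ := hIDM G L (IrrOn L) (subset_refl _)
  have hL0 : (Nat.card L : ℂ) ≠ 0 := by
    exact_mod_cast (Nat.card_pos (α := L)).ne'
  have he : eS L (IrrOn L) = dl := by
    have h1 : CF L (eS L (IrrOn L) - dl) := (hCFs L _ _ he1 (hCFdl L)).2.2
    have h2 : eS L (IrrOn L) - dl = 0 := by
      apply hEXP G L _ h1
      intro ψ hψ
      obtain ⟨h3, -, -⟩ := hCCI G L ψ hψ
      rw [(h3 1 (eS L (IrrOn L)) dl).2.1, he2 ψ hψ, (h3 1 z z).2.2.2, if_pos hψ, sub_self]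
    exact sub_eq_zero.1 h2
  have h1 : z 1 = ∑ x : G, z x * dl (x⁻¹ * 1) := by
    have h2 := congrFun (hdl z).2 1
    rw [← h2]
    unfold cv
    rw [finsum_eq_sum_of_fintype]
  have h1' : z 1 = ∑ x : G, z x * ((∑ ψ ∈ hfin.toFinset, ψ 1 * ψ x) / Nat.card L) := by
    rw [h1]
    refine Finset.sum_congr rfl fun x _ => ?_
    rw [mul_one, ← he]
    unfold eS
    rw [inv_inv, finsum_mem_eq_finite_toFinset_sum _ hfin]
  rw [finsum_mem_eq_finite_toFinset_sum _ hfin, h1', Finset.mul_sum]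
  have h3 : ∀ x : G, (Nat.card L : ℂ) * (z x * ((∑ ψ ∈ hfin.toFinset, ψ 1 * ψ x) / Nat.card L)) =
      ∑ ψ ∈ hfin.toFinset, ψ 1 * (z x * ψ x) := by
    intro x
    rw [mul_div_assoc', mul_div_assoc', mul_comm, mul_div_assoc, div_self hL0, mul_one, Finset.mul_sum]
    refine Finset.sum_congr rfl fun ψ _ => ?_
    ring
  simp only [h3]
  rw [Finset.sum_comm]
  refine Finset.sum_congr rfl fun ψ hψ => ?_
  have hψ' : ψ ∈ IrrOn L := hfin.mem_toFinset.1 hψ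
  obtain ⟨⟨n, hn0, hn1, -⟩, -⟩ := hI ψ hψ'
  have hψ1 : ψ 1 ≠ 0 := by
    rw [hn1]
    exact_mod_cast hn0.ne'
  unfold cc
  rw [finsum_eq_sum_of_fintype, ← Finset.mul_sum, sq, mul_assoc, mul_div_cancel₀ _ hψ1]

end Pool.Agent.OB
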