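import Pool.Agent.helper12.OB.SpecC

set_option autoImplicit false

/-!
# Project ob, row TUP: Frobenius's formula for the torus
-/

namespace Pool.Agent.OB

open Pool.Agent.helper58.DC Pool.Agent.DI Pool.Agent.GR

open Classical in
/-- restriction to `L` -/
noncomputable def TUP_r {G : Type} [Group G] (L : Subgroup G) (f : G → ℂ) : G → ℂ :=
  fun x => if x ∈ L then f x else 0

theorem TUP_CF {G : Type} [Group G] (L : Subgroup G) (f : G → ℂ)
    (hf : ∀ x y, f (y * x * y⁻¹) = f x) : CF L (TUP_r L f) := by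
  classical
  refine ⟨fun h hh x => ?_, fun x hx => ?_⟩
  · unfold TUP_r
    have h1 : h * x * h⁻¹ ∈ L ↔ x ∈ L := by
      constructor
      · intro h2
        have h3 := L.mul_mem (L.mul_mem (L.inv_mem hh) h2) hh
        have h4 : h⁻¹ * (h * x * h⁻¹) * h = x := by group
        rw [h4] at h3
        exact h3
      · intro h2
        exact L.mul_mem (L.mul_mem hh h2) (L.inv_mem hh)
    simp only [h1, hf]
  · unfold TUP_r
    rw [if_neg hx]

theorem TUP_cc {G : Type} [Group G] [Finite G] (hB2 : B2_stmt) (L : Subgroup G) (f : G → ℂ)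
    (ψ : G → ℂ) (hψ : ψ ∈ IrrOn L) : cc ψ (TUP_r L f) = cc ψ f := by
  classical
  obtain ⟨-, -, -, hz, -⟩ := (hB2 G L).2 ψ hψ
  unfold cc TUP_r
  congr 1
  refine finsum_congr fun x => ?_
  by_cases hx : x ∈ L
  · rw [if_pos hx]
  · rw [if_neg hx, hz x hx, mul_zero, mul_zero]

/-- the iterated convolution -/
noncomputable def TUP_K {G : Type} [Group G] (t k : G → ℂ) : ℕ → G → ℂ
  | 0 => k
  | n + 1 => cv t (TUP_K t k n)

theorem TUP_K_val {G : Type} [Group G] [Fintype G] (t g₁ g₂ : G → ℂ) (n : ℕ) (a : G) :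
    TUP_K t (cv g₁ g₂) n a = ∑ z : Fin n → G, ∑ s : G, (∏ j, t (z j)) *
      (g₁ s * g₂ ((qq z * s)⁻¹ * a)) := by
  classical
  induction n generalizing a with
  | zero =>
    simp only [TUP_K, Finset.univ_unique, Finset.sum_singleton, Finset.univ_eq_empty,
      Finset.prod_empty, one_mul, qq, List.ofFn_zero, List.prod_nil]
    unfold cv
    rw [finsum_eq_sum_of_fintype]
  | succ n ih =>
    simp only [TUP_K]
    unfold cv
    rw [finsum_eq_sum_of_fintype]
    have h1 : ∀ x : G, t x * TUP_K t (cv g₁ g₂) n (x⁻¹ * a) =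
        ∑ z : Fin n → G, ∑ s : G, (∏ j, t ((Fin.cons x z : Fin (n + 1) → G) j)) *
          (g₁ s * g₂ ((qq (Fin.cons x z : Fin (n + 1) → G) * s)⁻¹ * a)) := by
      intro x
      rw [ih, Finset.mul_sum]
      refine Finset.sum_congr rfl fun z _ => ?_
      rw [Finset.mul_sum]
      refine Finset.sum_congr rfl fun s _ => ?_
      rw [Fin.prod_univ_succ]
      simp only [Fin.cons_zero, Fin.cons_succ]
      have h2 : (qq (Fin.cons x z : Fin (n + 1) → G) * s)⁻¹ * a = (qq z * s)⁻¹ * (x⁻¹ * a) := by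
        unfold qq
        rw [List.ofFn_succ, List.prod_cons]
        simp only [Fin.cons_zero, Fin.cons_succ]
        group
      rw [h2]
      ring
    have h3 : (∑ x : G, t x * TUP_K t (cv g₁ g₂) n (x⁻¹ * a)) =
        ∑ x : G, ∑ z : Fin n → G, ∑ s : G, (∏ j, t ((Fin.cons x z : Fin (n + 1) → G) j)) *
          (g₁ s * g₂ ((qq (Fin.cons x z : Fin (n + 1) → G) * s)⁻¹ * a)) :=
      Finset.sum_congr rfl fun x _ => h1 x
    have h4 : (∑ x : G, ∑ z : Fin n → G, ∑ s : G,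
        (∏ j, t ((Fin.cons x z : Fin (n + 1) → G) j)) *
          (g₁ s * g₂ ((qq (Fin.cons x z : Fin (n + 1) → G) * s)⁻¹ * a))) =
        ∑ z : Fin (n + 1) → G, ∑ s : G, (∏ j, t (z j)) * (g₁ s * g₂ ((qq z * s)⁻¹ * a)) := by
      rw [← Fintype.sum_prod_type']
      exact Fintype.sum_equiv (Fin.consEquiv (fun _ => G)) _ _ (fun x => rfl)
    rw [← h4, ← h3]
    rfl

theorem TUP_tp {G : Type} [Group G] (p : ℕ) (x y : G) : tp p (y * x * y⁻¹) = tp p x := by
  unfold tp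
  have h : (y * x * y⁻¹) ^ p = 1 ↔ x ^ p = 1 := by
    rw [conj_pow]
    constructor
    · intro h1
      have h2 : x ^ p = y⁻¹ * (y * x ^ p * y⁻¹) * y := by group
      rw [h2, h1]
      group
    · intro h1
      rw [h1]
      group
  by_cases hx : x ^ p = 1
  · rw [if_pos hx, if_pos (h.2 hx)]
  · rw [if_neg hx, if_neg (fun h' => hx (h.1 h'))]

theorem TUP (hLSA : LSA_stmt) (hLSB : LSB_stmt) (hCVF : CVF_stmt) (hCCI : CCI_stmt)
    (hB2 : B2_stmt) : TUP_stmt := by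
  intro G _ _ p L g₁ g₂ hg₁ hg₂ n
  classical
  let _ : Fintype G := Fintype.ofFinite G
  obtain ⟨-, -, -, -, -, -, -, hCFs, -, -, -, -⟩ := hCVF G
  obtain ⟨hfin, hI⟩ := hB2 G L
  have hL0 : (Nat.card L : ℂ) ≠ 0 := by
    exact_mod_cast (Nat.card_pos (α := L)).ne'
  set w : G → ℂ := fun h => Nat.card {z : G × G // z.1 ∈ L ∧ z.2 ∈ L ∧
      z.1 * z.2 * z.1⁻¹ * z.2⁻¹ = h} with hw
  obtain ⟨hwC, hwcc⟩ := hLSA G L w (fun h => rfl)
  set t := TUP_r L (tp p) with ht
  set k := cv (TUP_r L g₁) (TUP_r L g₂) with hk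
  have htC : CF L t := TUP_CF L _ (TUP_tp p)
  have h1C : CF L (TUP_r L g₁) := TUP_CF L _ hg₁
  have h2C : CF L (TUP_r L g₂) := TUP_CF L _ hg₂
  have hkC : CF L k := (hCFs L _ _ h1C h2C).1
  have hKC : ∀ m : ℕ, CF L (TUP_K t k m) := by
    intro m
    induction m with
    | zero => exact hkC
    | succ m ih => exact (hCFs L _ _ htC ih).1
  have hKcc : ∀ ψ ∈ IrrOn L, ∀ m : ℕ,
      cc ψ (TUP_K t k m) = (cc ψ (tp p)) ^ m * (cc ψ g₁ * cc ψ g₂) := by
    intro ψ hψ m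
    obtain ⟨-, hm, -⟩ := hCCI G L ψ hψ
    induction m with
    | zero =>
      simp only [TUP_K, pow_zero, one_mul]
      rw [hk, hm _ _ h1C h2C, TUP_cc hB2 L g₁ ψ hψ, TUP_cc hB2 L g₂ ψ hψ]
    | succ m ih =>
      simp only [TUP_K]
      rw [hm _ _ htC (hKC m), ih, ht, TUP_cc hB2 L (tp p) ψ hψ]
      ring
  -- the value at one
  have hval : (Nat.card L : ℂ) * cv w (TUP_K t k n) 1 =
      ∑ᶠ ψ ∈ IrrOn L, ψ 1 ^ 2 * cc ψ (cv w (TUP_K t k n)) :=
    hLSB G L _ (hCFs L _ _ hwC (hKC n)).1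
  have hval2 : cv w (TUP_K t k n) 1 =
      (Nat.card L : ℂ) * ∑ᶠ ψ ∈ IrrOn L, cc ψ g₁ * cc ψ g₂ * (cc ψ (tp p)) ^ n := by
    apply mul_left_cancel₀ hL0
    rw [hval, finsum_mem_eq_finite_toFinset_sum _ hfin, finsum_mem_eq_finite_toFinset_sum _ hfin,
      Finset.mul_sum, Finset.mul_sum]
    refine Finset.sum_congr rfl fun ψ hψ => ?_
    have hψ' : ψ ∈ IrrOn L := hfin.mem_toFinset.1 hψ
    obtain ⟨⟨m, hn0, hn1, -⟩, -⟩ := hI ψ hψ'
    have hψ1 : ψ 1 ≠ 0 := by
      rw [hn1]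
      exact_mod_cast hn0.ne'
    obtain ⟨-, hm, -⟩ := hCCI G L ψ hψ'
    rw [hm _ _ hwC (hKC n), hwcc ψ hψ', hKcc ψ hψ' n, div_pow]
    field_simp
  rw [← hval2]
  -- compute the left side
  have hcv : cv w (TUP_K t k n) 1 = ∑ z : G × G, if z.1 ∈ L ∧ z.2 ∈ L then
      TUP_K t k n (z.1 * z.2 * z.1⁻¹ * z.2⁻¹)⁻¹ else 0 := by
    unfold cv
    rw [finsum_eq_sum_of_fintype]
    have h1 : ∀ h : G, w h * TUP_K t k n (h⁻¹ * 1) = ∑ z : G × G,
        if z.1 ∈ L ∧ z.2 ∈ L ∧ z.1 * z.2 * z.1⁻¹ * z.2⁻¹ = h then TUP_K t k n h⁻¹ else 0 := by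
      intro h
      rw [mul_one]
      have h2 : w h = ∑ z : G × G, if z.1 ∈ L ∧ z.2 ∈ L ∧ z.1 * z.2 * z.1⁻¹ * z.2⁻¹ = h
          then (1 : ℂ) else 0 := by
        rw [hw]
        simp only
        rw [Nat.card_eq_fintype_card, Fintype.card_subtype, Finset.card_filter]
        push_cast
        rfl
      rw [h2, Finset.sum_mul]
      refine Finset.sum_congr rfl fun z _ => ?_
      rw [ite_mul, one_mul, zero_mul]
    simp only [h1]
    rw [Finset.sum_comm]
    refine Finset.sum_congr rfl fun z _ => ?_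
    by_cases h3 : z.1 ∈ L ∧ z.2 ∈ L
    · rw [if_pos h3]
      have h4 : ∀ h : G, (if z.1 ∈ L ∧ z.2 ∈ L ∧ z.1 * z.2 * z.1⁻¹ * z.2⁻¹ = h then
          TUP_K t k n h⁻¹ else 0) =
          if z.1 * z.2 * z.1⁻¹ * z.2⁻¹ = h then TUP_K t k n h⁻¹ else 0 := by
        intro h
        simp only [h3.1, h3.2, true_and]
      simp only [h4]
      rw [Finset.sum_ite_eq]
      simp
    · rw [if_neg h3]
      refine Finset.sum_eq_zero fun x _ => ?_
      rw [if_neg]
      rintro ⟨h5, h6, -⟩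
      exact h3 ⟨h5, h6⟩
  rw [hcv]
  have hmem : ∀ x : (G × G) × (Fin n → G) × G,
      Subgroup.closure ({x.1.1, x.1.2, x.2.2} ∪ Set.range x.2.1) ≤ L ↔
      (x.1.1 ∈ L ∧ x.1.2 ∈ L) ∧ (∀ j, x.2.1 j ∈ L) ∧ x.2.2 ∈ L := by
    intro x
    rw [Subgroup.closure_le]
    constructor
    · intro h
      refine ⟨⟨h (by simp), h (by simp)⟩, fun j => h (by simp), h (by simp)⟩
    · rintro ⟨⟨h1, h2⟩, h3, h4⟩ y hy
      rcases hy with hy | ⟨j, rfl⟩
      · rcases hy with rfl | rfl | rfl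
        · exact h1
        · exact h2
        · exact h4
      · exact h3 j
  rw [finsum_mem_def, finsum_eq_sum_of_fintype, Fintype.sum_prod_type]
  refine Finset.sum_congr rfl fun z _ => ?_
  rw [Fintype.sum_prod_type]
  by_cases hz : z.1 ∈ L ∧ z.2 ∈ L
  · rw [if_pos hz, hk, TUP_K_val]
    refine Finset.sum_congr rfl fun u _ => Finset.sum_congr rfl fun s _ => ?_
    by_cases hus : (∀ j, u j ∈ L) ∧ s ∈ L
    · rw [Set.indicator_of_mem (by exact (hmem (z, u, s)).2 ⟨hz, hus⟩)]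
      simp only
      have hq : qq u ∈ L := by
        unfold qq
        apply L.list_prod_mem
        intro x hx
        obtain ⟨j, rfl⟩ := (List.mem_ofFn' _ _).1 hx
        exact hus.1 j
      have h5 : ∏ j, t (u j) = ∏ j, tp p (u j) := by
        refine Finset.prod_congr rfl fun j _ => ?_
        rw [ht]
        unfold TUP_r
        rw [if_pos (hus.1 j)]
      have h6 : TUP_r L g₁ s = g₁ s := by
        unfold TUP_r
        rw [if_pos hus.2]
      have h7 : (qq u * s)⁻¹ * (z.1 * z.2 * z.1⁻¹ * z.2⁻¹)⁻¹ =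
          (z.1 * z.2 * z.1⁻¹ * z.2⁻¹ * qq u * s)⁻¹ := by group
      have h8 : (z.1 * z.2 * z.1⁻¹ * z.2⁻¹ * qq u * s)⁻¹ ∈ L :=
        L.inv_mem (L.mul_mem (L.mul_mem (L.mul_mem (L.mul_mem (L.mul_mem hz.1 hz.2)
          (L.inv_mem hz.1)) (L.inv_mem hz.2)) hq) hus.2)
      have h9 : TUP_r L g₂ ((qq u * s)⁻¹ * (z.1 * z.2 * z.1⁻¹ * z.2⁻¹)⁻¹) =
          g₂ (z.1 * z.2 * z.1⁻¹ * z.2⁻¹ * qq u * s)⁻¹ := by
        rw [h7]
        unfold TUP_r
        rw [if_pos h8]
      rw [h5, h6, h9]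
      ring
    · rw [Set.indicator_of_notMem (by
        intro h
        exact hus ((hmem (z, u, s)).1 h).2)]
      by_cases hs : s ∈ L
      · have hu : ∃ j, u j ∉ L := by
          by_contra hcon
          push Not at hcon
          exact hus ⟨hcon, hs⟩
        obtain ⟨j, hj⟩ := hu
        have h10 : ∏ j, t (u j) = 0 := by
          apply Finset.prod_eq_zero (Finset.mem_univ j)
          rw [ht]
          unfold TUP_r
          rw [if_neg hj]
        rw [h10, zero_mul]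
      · have h11 : TUP_r L g₁ s = 0 := by
          unfold TUP_r
          rw [if_neg hs]
        rw [h11, zero_mul, mul_zero]
  · rw [if_neg hz]
    refine Finset.sum_eq_zero fun u _ => Finset.sum_eq_zero fun s _ => ?_
    rw [Set.indicator_of_notMem (by
      intro h
      exact hz ((hmem (z, u, s)).1 h).1)]

end Pool.Agent.OB
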