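import Pool.Agent.helper38.OB.Spec

set_option autoImplicit false

/-!
# MP_d7d65f_nt, rows ob:GE and ob:GD (the number of small sums)
-/

namespace Pool.Agent.OB

open Finset

theorem GE_pr_congr (V : Finset ℕ) (w : ℕ → ℝ) (P Q : Finset ℕ → Prop)
    (h : ∀ A, A ⊆ V → (P A ↔ Q A)) : pr V w P = pr V w Q := by
  classical
  unfold pr
  refine Finset.sum_congr (Finset.filter_congr fun A hA => h A (Finset.mem_powerset.1 hA))
    fun _ _ => rfl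

theorem GE_mem {j : ℕ} (c : Fin j → ℤ) (s : ℤ) (N : ℕ) (V : Finset ℕ) (x : Fin j → ℕ) :
    x ∈ RN c s N V ↔ ((∀ i, x i ∈ V) ∧ Function.Injective x) ∧ |s + lf c x| ≤ N := by
  classical
  simp only [RN, RQ, Inj, Finset.mem_filter, Fintype.mem_piFinset]

theorem GE_im {j : ℕ} (x : Fin j → ℕ) (A : Finset ℕ) : im x ⊆ A ↔ ∀ i, x i ∈ A := by
  unfold im
  rw [Finset.image_subset_iff]
  exact ⟨fun h i => h i (Finset.mem_univ i), fun h i _ => h i⟩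

theorem GE_inn {j : ℕ} (c : Fin j → ℤ) (s : ℤ) (N : ℕ) (V A : Finset ℕ) (hA : A ⊆ V) :
    inn (RN c s N V) im A = RN c s N A := by
  classical
  ext x
  unfold inn
  rw [Finset.mem_filter, GE_mem, GE_mem, GE_im]
  constructor
  · rintro ⟨⟨⟨_, h2⟩, h3⟩, h4⟩
    exact ⟨⟨h4, h2⟩, h3⟩
  · rintro ⟨⟨h1, h2⟩, h3⟩
    exact ⟨⟨⟨fun i => hA (h1 i), h2⟩, h3⟩, h1⟩

theorem GE_Ex (h : ℕ) (κ : ℝ) {j : ℕ} (c : Fin j → ℤ) (s : ℤ) (N : ℕ) (V : Finset ℕ) :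
    ∑ x ∈ RN c s N V, ∏ z ∈ im x, wt h κ z = Ex h κ (RN c s N V) := by
  unfold Ex
  refine Finset.sum_congr rfl fun x hx => ?_
  rw [GE_mem] at hx
  unfold im
  rw [Finset.prod_image (fun a _ b _ hab => hx.1.2 hab)]

theorem GE_w (hWTS : WTS_stmt) (h : ℕ) (hh : 3 ≤ h) (κ : ℝ) (hκ : 0 < κ)
    (hκ1 : κ ≤ 1) (l0 L : ℕ) : ∀ x ∈ U h l0 L, 0 ≤ wt h κ x ∧ wt h κ x ≤ 1 := by
  intro x hx
  unfold U at hx
  rw [Finset.mem_biUnion] at hx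
  obtain ⟨l, _, hl⟩ := hx
  obtain ⟨h1, h2, h3, _⟩ := hWTS h hh κ hκ hκ1 l
  rw [h1 x hl]
  exact ⟨h2.le, h3⟩

theorem GE_sub {j : ℕ} (c : Fin j → ℤ) (s : ℤ) (N : ℕ) (V : Finset ℕ) :
    ∀ x ∈ RN c s N V, im x ⊆ V := fun x hx => (GE_im x V).2 ((GE_mem c s N V x).1 hx).1.1

theorem GE_be (h : ℕ) (hh : 3 ≤ h) : (4 : ℝ) ≤ be h := by
  unfold be C0
  have h1 : 4 ≤ 16 * h ^ 2 := by nlinarith
  have h2 : 16 * h ^ 2 ≤ (16 * h ^ 2) ^ 6 := Nat.le_self_pow (by norm_num) _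
  exact_mod_cast h1.trans h2

theorem GE_half (b : ℝ) (hb : 4 ≤ b) (J M : ℕ) (hJM : J ≤ M) :
    ((M : ℝ) + 1) / b ^ M ≤ (1 / 2) ^ J := by
  have h1 : ((M : ℝ) + 1) ≤ 2 ^ M := by
    have : M + 1 ≤ 2 ^ M := Nat.lt_two_pow_self
    exact_mod_cast this
  have h2 : (4 : ℝ) ^ M ≤ b ^ M := pow_le_pow_left₀ (by norm_num) hb M
  have h3 : ((M : ℝ) + 1) / b ^ M ≤ 2 ^ M / 4 ^ M :=
    div_le_div₀ (by positivity) h1 (by positivity) h2
  have h4 : (2 : ℝ) ^ M / 4 ^ M = (1 / 2) ^ M := by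
    rw [← div_pow]
    norm_num
  rw [h4] at h3
  exact h3.trans (pow_le_pow_of_le_one (by norm_num) (by norm_num) hJM)

theorem GE_geo (J0 J2 : ℕ) : ∑ J ∈ Finset.Ioc J0 J2, (1 / 2 : ℝ) ^ J ≤ (1 / 2) ^ J0 := by
  induction J2 with
  | zero =>
    rw [Finset.Ioc_eq_empty (by omega), Finset.sum_empty]
    positivity
  | succ n ih =>
    rcases Nat.lt_or_ge n J0 with hn | hn
    · rw [Finset.Ioc_eq_empty (by omega), Finset.sum_empty]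
      positivity
    · have key : ∀ m, J0 ≤ m → ∑ J ∈ Finset.Ioc J0 m, (1 / 2 : ℝ) ^ J = (1 / 2) ^ J0 - (1 / 2) ^ m := by
        intro m hm
        induction m, hm using Nat.le_induction with
        | base => simp
        | succ k hk ih =>
          rw [Finset.sum_Ioc_succ_top hk, ih, pow_succ]
          ring
      rw [key (n + 1) (by omega)]
      have : (0 : ℝ) < (1 / 2) ^ (n + 1) := by positivity
      linarith

/-- A constant times a geometric series is small. -/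
theorem GE_tail (A δ : ℝ) (hA : 0 ≤ A) (hδ : 0 < δ) :
    ∃ J1 : ℕ, ∀ J0 J2 : ℕ, J1 ≤ J0 → ∑ J ∈ Finset.Ioc J0 J2, A * (1 / 2 : ℝ) ^ J ≤ δ := by
  have h1 : Filter.Tendsto (fun n : ℕ => A * (1 / 2 : ℝ) ^ n) Filter.atTop (nhds (A * 0)) :=
    (tendsto_pow_atTop_nhds_zero_of_lt_one (by norm_num) (by norm_num)).const_mul A
  rw [mul_zero] at h1
  obtain ⟨J1, hJ1⟩ := (h1.eventually (gt_mem_nhds hδ)).exists
  refine ⟨J1, fun J0 J2 hJ => ?_⟩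
  rw [← Finset.mul_sum]
  calc A * ∑ J ∈ Finset.Ioc J0 J2, (1 / 2 : ℝ) ^ J ≤ A * (1 / 2) ^ J0 :=
        mul_le_mul_of_nonneg_left (GE_geo J0 J2) hA
    _ ≤ A * (1 / 2) ^ J1 :=
        mul_le_mul_of_nonneg_left (pow_le_pow_of_le_one (by norm_num) (by norm_num) hJ) hA
    _ ≤ δ := hJ1.le

theorem GE (hBAS : BAS_stmt) (hWTS : WTS_stmt) (hMB : MB_stmt) (hPRC : PRC_stmt) : GE_stmt := by
  intro h hh κ δ hκ hκ1 hδ
  obtain ⟨C, hC, hMB⟩ := hMB h hh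
  have hκh : 0 < κ ^ h := pow_pos hκ h
  obtain ⟨J1, hJ1⟩ := GE_tail (C / κ ^ h) δ (by positivity) hδ
  refine ⟨J1, fun J0 J2 l0 L hJ0 j c hj hjh hc => ?_⟩
  refine le_trans (Finset.sum_le_sum fun J _ => ?_) (hJ1 J0 J2 hJ0)
  have hB : (0 : ℝ) < (Bs h : ℝ) ^ J := by
    have : 0 < Bs h := by
      unfold Bs be C0
      positivity
    positivity
  have e1 : pr (U h l0 L) (wt h κ)
      (fun A => κ ^ h * (Bs h : ℝ) ^ J ≤ ((RN c 0 (Bs h ^ J) A).card : ℝ)) =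
      pr (U h l0 L) (wt h κ)
      (fun A => κ ^ h * (Bs h : ℝ) ^ J ≤ ((inn (RN c 0 (Bs h ^ J) (U h l0 L)) im A).card : ℝ)) := by
    refine GE_pr_congr _ _ _ _ fun A hA => ?_
    rw [GE_inn _ _ _ _ _ hA]
  rw [e1]
  refine le_trans (hPRC (U h l0 L) (wt h κ) (GE_w hWTS h hh κ hκ hκ1 l0 L) _ _ _
    (GE_sub c 0 (Bs h ^ J) (U h l0 L)) _ (by positivity)) ?_
  rw [GE_Ex]
  have h1 := hMB κ hκ hκ1 l0 L j c hj hjh hc 0 J (max J l0) rfl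
  have h2 := GE_half (be h) (GE_be h hh) J (max J l0) (le_max_left _ _)
  have hb : (0 : ℝ) < (be h : ℝ) ^ (max J l0) := by
    have := GE_be h hh
    positivity
  calc Ex h κ (RN c 0 (Bs h ^ J) (U h l0 L)) / (κ ^ h * (Bs h : ℝ) ^ J)
      ≤ (C * (Bs h : ℝ) ^ J * ((max J l0 : ℕ) + 1) / (be h : ℝ) ^ (max J l0)) /
          (κ ^ h * (Bs h : ℝ) ^ J) := div_le_div_of_nonneg_right h1 (by positivity)
    _ = C / κ ^ h * ((((max J l0 : ℕ) : ℝ) + 1) / (be h : ℝ) ^ (max J l0)) := by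
        field_simp
    _ ≤ C / κ ^ h * (1 / 2) ^ J := mul_le_mul_of_nonneg_left h2 (by positivity)

end Pool.Agent.OB
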