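import Pool.Agent.helper80.OB.GE

set_option autoImplicit false

/-!
# MP_d7d65f_nt, rows ob:GA and ob:GB
-/

namespace Pool.Agent.OB

open Finset

theorem GA_geo (l0 : ℕ) (T : Finset ℕ) (hT : ∀ l ∈ T, l0 ≤ l) :
    ∑ l ∈ T, (1 / 2 : ℝ) ^ l ≤ 2 * (1 / 2) ^ l0 := by
  have h1 : T ⊆ insert l0 (Finset.Ioc l0 (T.sup id)) := by
    intro l hl
    rw [Finset.mem_insert, Finset.mem_Ioc]
    have h2 := hT l hl
    have h3 : l ≤ T.sup id := Finset.le_sup (f := id) hl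
    rcases Nat.eq_or_lt_of_le h2 with h | h
    · exact Or.inl h.symm
    · exact Or.inr ⟨h, h3⟩
  calc ∑ l ∈ T, (1 / 2 : ℝ) ^ l ≤ ∑ l ∈ insert l0 (Finset.Ioc l0 (T.sup id)), (1 / 2 : ℝ) ^ l :=
        Finset.sum_le_sum_of_subset_of_nonneg h1 fun _ _ _ => by positivity
    _ = (1 / 2) ^ l0 + ∑ l ∈ Finset.Ioc l0 (T.sup id), (1 / 2 : ℝ) ^ l := by
        rw [Finset.sum_insert (by simp)]
    _ ≤ 2 * (1 / 2) ^ l0 := by
        have := GE_geo l0 (T.sup id)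
        linarith

theorem GA_tail (A δ : ℝ) (hA : 0 ≤ A) (hδ : 0 < δ) :
    ∃ l1 : ℕ, ∀ l0 : ℕ, l1 ≤ l0 → ∀ T : Finset ℕ, (∀ l ∈ T, l0 ≤ l) →
      ∑ l ∈ T, A * (1 / 2 : ℝ) ^ l ≤ δ := by
  have h1 : Filter.Tendsto (fun n : ℕ => A * (2 * (1 / 2 : ℝ) ^ n)) Filter.atTop
      (nhds (A * (2 * 0))) :=
    ((tendsto_pow_atTop_nhds_zero_of_lt_one (by norm_num) (by norm_num)).const_mul 2).const_mul A
  rw [mul_zero, mul_zero] at h1
  obtain ⟨J1, hJ1⟩ := (h1.eventually (gt_mem_nhds hδ)).exists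
  refine ⟨J1, fun l0 hJ T hT => ?_⟩
  rw [← Finset.mul_sum]
  calc A * ∑ J ∈ T, (1 / 2 : ℝ) ^ J ≤ A * (2 * (1 / 2) ^ l0) :=
        mul_le_mul_of_nonneg_left (GA_geo l0 T hT) hA
    _ ≤ A * (2 * (1 / 2) ^ J1) := by
        have : (1 / 2 : ℝ) ^ l0 ≤ (1 / 2) ^ J1 :=
          pow_le_pow_of_le_one (by norm_num) (by norm_num) hJ
        exact mul_le_mul_of_nonneg_left (by linarith) hA
    _ ≤ δ := hJ1.le

theorem GA (hBAS : BAS_stmt) (hWTS : WTS_stmt) (hPRF : PRF_stmt) : GA_stmt := by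
  intro h hh κ δ hκ hκ1 hδ
  obtain ⟨l1, hl1⟩ := GA_tail (4 / κ) δ (by positivity) hδ
  refine ⟨l1, fun l0 L hl0 => ?_⟩
  refine le_trans (Finset.sum_le_sum fun l hl => ?_)
    (hl1 l0 hl0 (Finset.Icc l0 L) fun l hl => (Finset.mem_Icc.1 hl).1)
  have hb := GE_be h hh
  have hb0 : (0 : ℝ) < (be h : ℝ) ^ l := by positivity
  have h1 := hPRF (U h l0 L) (wt h κ) (GE_w hWTS h hh κ hκ hκ1 l0 L) (S h l)
    (Finset.subset_biUnion_of_mem (S h) hl) (κ * (be h : ℝ) ^ l) (by positivity)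
    (hWTS h hh κ hκ hκ1 l).2.2.2
  refine h1.trans ?_
  have h2 : (2 : ℝ) ^ l ≤ (be h : ℝ) ^ l := pow_le_pow_left₀ (by norm_num) (by linarith) l
  rw [div_mul_eq_div_div]
  have h3 : (1 / 2 : ℝ) ^ l = 1 / 2 ^ l := by rw [div_pow, one_pow]
  rw [h3, mul_one_div]
  exact div_le_div_of_nonneg_left (by positivity) (by positivity) h2

/-! ### GB -/

theorem GA_mem {j : ℕ} (c : Fin j → ℤ) (P : ℤ → Prop) (V : Finset ℕ) (x : Fin j → ℕ) :
    x ∈ RQ c P V ↔ ((∀ i, x i ∈ V) ∧ Function.Injective x) ∧ P (lf c x) := by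
  classical
  simp only [RQ, Inj, Finset.mem_filter, Fintype.mem_piFinset]

theorem GA_inn {j : ℕ} (c : Fin j → ℤ) (P : ℤ → Prop) (V A : Finset ℕ) (hA : A ⊆ V) :
    inn (RQ c P V) im A = RQ c P A := by
  classical
  ext x
  unfold inn
  rw [Finset.mem_filter, GA_mem, GA_mem, GE_im]
  constructor
  · rintro ⟨⟨⟨_, h2⟩, h3⟩, h4⟩
    exact ⟨⟨h4, h2⟩, h3⟩
  · rintro ⟨⟨h1, h2⟩, h3⟩
    exact ⟨⟨⟨fun i => hA (h1 i), h2⟩, h3⟩, h1⟩

theorem GA_Ex (h : ℕ) (κ : ℝ) {j : ℕ} (c : Fin j → ℤ) (P : ℤ → Prop) (V : Finset ℕ) :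
    ∑ x ∈ RQ c P V, ∏ z ∈ im x, wt h κ z = Ex h κ (RQ c P V) := by
  unfold Ex
  refine Finset.sum_congr rfl fun x hx => ?_
  rw [GA_mem] at hx
  unfold im
  rw [Finset.prod_image (fun a _ b _ hab => hx.1.2 hab)]

theorem GA_sub {j : ℕ} (c : Fin j → ℤ) (P : ℤ → Prop) (V : Finset ℕ) :
    ∀ x ∈ RQ c P V, im x ⊆ V := fun x hx => (GE_im x V).2 ((GA_mem c P V x).1 hx).1.1

/-- The bound for the contribution of the `n` with the parameter `M`. -/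
theorem GA_u (h : ℕ) (hh : 3 ≤ h) (C : ℝ) (hC : 0 < C) (M : ℕ) :
    (3 * (h : ℝ) * (Bs h : ℝ) ^ (M + 1)) * (C * (M + 1) / (be h : ℝ) ^ M) ^ (2 * h) ≤
      3 * (h : ℝ) * (Bs h : ℝ) * C ^ (2 * h) * (1 / 2) ^ M := by
  have hb16 : (16 : ℝ) ≤ be h := by
    unfold be C0
    have h1 : 16 ≤ 16 * h ^ 2 := by nlinarith
    have h2 : 16 * h ^ 2 ≤ (16 * h ^ 2) ^ 6 := Nat.le_self_pow (by norm_num) _
    exact_mod_cast h1.trans h2
  have hb0 : (0 : ℝ) < be h := by linarith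
  have hBs : (Bs h : ℝ) = (be h : ℝ) ^ h := by
    unfold Bs
    push_cast
    rfl
  have hx : ((M : ℝ) + 1) ^ 2 / (be h : ℝ) ^ M ≤ (1 / 2) ^ M := by
    have h1 : ((M : ℝ) + 1) ≤ 2 ^ M := by
      have : M + 1 ≤ 2 ^ M := Nat.lt_two_pow_self
      exact_mod_cast this
    have h2 : ((M : ℝ) + 1) ^ 2 ≤ (2 ^ M) ^ 2 := pow_le_pow_left₀ (by positivity) h1 2
    have h3 : (16 : ℝ) ^ M ≤ (be h : ℝ) ^ M := pow_le_pow_left₀ (by norm_num) hb16 M
    have h4 : ((M : ℝ) + 1) ^ 2 / (be h : ℝ) ^ M ≤ (2 ^ M) ^ 2 / 16 ^ M :=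
      div_le_div₀ (by positivity) h2 (by positivity) h3
    have h5 : ((2 : ℝ) ^ M) ^ 2 / 16 ^ M = (1 / 4) ^ M := by
      rw [← pow_mul, mul_comm M 2, pow_mul, ← div_pow]
      norm_num
    rw [h5] at h4
    exact h4.trans (pow_le_pow_left₀ (by norm_num) (by norm_num) M)
  have hx1 : (((M : ℝ) + 1) ^ 2 / (be h : ℝ) ^ M) ^ h ≤ (1 / 2) ^ M := by
    have h0 : (0 : ℝ) ≤ ((M : ℝ) + 1) ^ 2 / (be h : ℝ) ^ M := by positivity
    have h1 : ((M : ℝ) + 1) ^ 2 / (be h : ℝ) ^ M ≤ 1 :=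
      hx.trans (pow_le_one₀ (by norm_num) (by norm_num))
    exact (pow_le_of_le_one h0 h1 (by omega)).trans hx
  have e1 : (3 * (h : ℝ) * (Bs h : ℝ) ^ (M + 1)) * (C * (M + 1) / (be h : ℝ) ^ M) ^ (2 * h)
      = 3 * (h : ℝ) * (Bs h : ℝ) * C ^ (2 * h) * (((M : ℝ) + 1) ^ 2 / (be h : ℝ) ^ M) ^ h := by
    rw [hBs, div_pow, div_pow, mul_pow, pow_succ, ← pow_mul, ← pow_mul, ← pow_mul, ← pow_mul]
    have e2 : (be h : ℝ) ^ (M * (2 * h)) = (be h : ℝ) ^ (h * M) * (be h : ℝ) ^ (M * h) := by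
      rw [← pow_add]
      congr 1
      ring
    rw [e2]
    have h1 : (be h : ℝ) ^ (h * M) ≠ 0 := by positivity
    have h2 : (be h : ℝ) ^ (M * h) ≠ 0 := by positivity
    field_simp
  rw [e1]
  exact mul_le_mul_of_nonneg_left hx1 (by positivity)

theorem GB (hBAS : BAS_stmt) (hWTS : WTS_stmt) (hMA : MA_stmt) (hPRD : PRD_stmt) : GB_stmt := by
  classical
  intro h hh κ δ hκ hκ1 hδ
  obtain ⟨C, hC, hMA⟩ := hMA h hh
  obtain ⟨l1, hl1⟩ := GA_tail (3 * (h : ℝ) * (Bs h : ℝ) * C ^ (2 * h)) δ (by positivity) hδ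
  refine ⟨l1, fun l0 L hl0 j c hj hjh hc N => ?_⟩
  have hB2 : 1 < Bs h := by
    have h1 : 16 * h ^ 2 ≤ be h := by
      unfold be C0
      exact Nat.le_self_pow (by norm_num) _
    have h2 : be h ≤ Bs h := by
      unfold Bs
      exact Nat.le_self_pow (by omega) _
    nlinarith
  -- the parameter of `n`
  let Mf : ℤ → ℕ := fun n => max l0 (Nat.log (Bs h) ((n.natAbs - 1) / h))
  have hM1 : ∀ n : ℤ, l0 ≤ Mf n := fun n => le_max_left _ _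
  have hM2 : ∀ n : ℤ, Mf n = l0 ∨ (h : ℤ) * (Bs h : ℤ) ^ (Mf n) < |n| := by
    intro n
    rcases Nat.lt_or_ge l0 (Nat.log (Bs h) ((n.natAbs - 1) / h)) with hlt | hge
    · right
      have e1 : Mf n = Nat.log (Bs h) ((n.natAbs - 1) / h) := max_eq_right hlt.le
      rw [e1]
      have hq : (n.natAbs - 1) / h ≠ 0 := by
        intro h0
        rw [h0] at hlt
        simp at hlt
      have h1 := Nat.pow_log_le_self (Bs h) hq
      have h2 : h * ((n.natAbs - 1) / h) ≤ n.natAbs - 1 := Nat.mul_div_le _ _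
      have h3 : h * Bs h ^ Nat.log (Bs h) ((n.natAbs - 1) / h) ≤ n.natAbs - 1 :=
        (Nat.mul_le_mul_left h h1).trans h2
      have h4 : n.natAbs - 1 ≠ 0 := by
        intro h0
        rw [h0] at hq
        simp at hq
      have h5 : h * Bs h ^ Nat.log (Bs h) ((n.natAbs - 1) / h) < n.natAbs := by omega
      rw [Int.abs_eq_natAbs]
      exact_mod_cast h5
    · left
      exact max_eq_left hge
  have hM3 : ∀ n : ℤ, n.natAbs ≤ h * Bs h ^ (Mf n + 1) := by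
    intro n
    have h1 : (n.natAbs - 1) / h < Bs h ^ (Nat.log (Bs h) ((n.natAbs - 1) / h) + 1) :=
      Nat.lt_pow_succ_log_self hB2 _
    have h2 : Bs h ^ (Nat.log (Bs h) ((n.natAbs - 1) / h) + 1) ≤ Bs h ^ (Mf n + 1) :=
      Nat.pow_le_pow_right (by omega) (Nat.succ_le_succ (le_max_right _ _))
    have h3 : (n.natAbs - 1) / h + 1 ≤ Bs h ^ (Mf n + 1) := by omega
    have h4 : n.natAbs - 1 < h * ((n.natAbs - 1) / h + 1) := by
      have := Nat.lt_mul_div_succ (n.natAbs - 1) (show 0 < h by omega)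
      exact this
    have h5 : h * ((n.natAbs - 1) / h + 1) ≤ h * Bs h ^ (Mf n + 1) := Nat.mul_le_mul_left h h3
    omega
  -- one `n`
  have hone : ∀ n : ℤ, pr (U h l0 L) (wt h κ) (fun A => ¬ NoDisj A c n (2 * h)) ≤
      (C * ((Mf n : ℕ) + 1) / (be h : ℝ) ^ (Mf n)) ^ (2 * h) := by
    intro n
    have e1 : pr (U h l0 L) (wt h κ) (fun A => ¬ NoDisj A c n (2 * h)) =
        pr (U h l0 L) (wt h κ) (fun A => ∃ G : Finset (Fin j → ℕ),
          G ⊆ inn (RP c n (U h l0 L)) im A ∧ G.card = 2 * h ∧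
          ∀ i ∈ G, ∀ k ∈ G, i ≠ k → Disjoint (im i) (im k)) := by
      refine GE_pr_congr _ _ _ _ fun A hA => ?_
      unfold NoDisj RP
      rw [GA_inn _ _ _ _ hA, not_not]
    rw [e1]
    refine (hPRD (U h l0 L) (wt h κ) (GE_w hWTS h hh κ hκ hκ1 l0 L) _ _ _
      (GA_sub c (fun y => y = n) (U h l0 L)) (2 * h)).trans ?_
    have h1 := hMA κ hκ hκ1 l0 L j c hj hjh hc n (Mf n) (hM1 n) (hM2 n)
    have h2 : ∑ x ∈ RP c n (U h l0 L), ∏ z ∈ im x, wt h κ z ≤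
        C * ((Mf n : ℕ) + 1) / (be h : ℝ) ^ (Mf n) := by
      unfold RP at h1 ⊢
      rw [GA_Ex]
      exact h1
    have h0 : 0 ≤ ∑ x ∈ RP c n (U h l0 L), ∏ z ∈ im x, wt h κ z := by
      refine Finset.sum_nonneg fun x hx => Finset.prod_nonneg fun z hz => ?_
      exact (GE_w hWTS h hh κ hκ hκ1 l0 L z (GA_sub c (fun y => y = n) (U h l0 L) x hx hz)).1
    have h3 : (1 : ℝ) ≤ ((2 * h).factorial : ℝ) := by
      exact_mod_cast Nat.succ_le_of_lt (Nat.factorial_pos _)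
    exact (div_le_self (pow_nonneg h0 _) h3).trans (pow_le_pow_left₀ h0 h2 _)
  refine le_trans (Finset.sum_le_sum fun n _ => hone n) ?_
  have hfib := Finset.sum_fiberwise_of_maps_to (s := Finset.Icc (-(N : ℤ)) N)
    (t := (Finset.Icc (-(N : ℤ)) N).image Mf) (g := Mf)
    (fun n hn => Finset.mem_image_of_mem Mf hn)
    (fun n => (C * ((Mf n : ℕ) + 1) / (be h : ℝ) ^ (Mf n)) ^ (2 * h))
  rw [← hfib]
  refine le_trans (Finset.sum_le_sum fun M _ => ?_)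
    (hl1 l0 hl0 ((Finset.Icc (-(N : ℤ)) N).image Mf) fun l hl => by
      obtain ⟨n, _, rfl⟩ := Finset.mem_image.1 hl
      exact hM1 n)
  have h1 : ∑ n ∈ (Finset.Icc (-(N : ℤ)) N).filter (fun n => Mf n = M),
      (C * ((Mf n : ℕ) + 1) / (be h : ℝ) ^ (Mf n)) ^ (2 * h) =
      (((Finset.Icc (-(N : ℤ)) N).filter (fun n => Mf n = M)).card : ℝ) *
        (C * ((M : ℕ) + 1) / (be h : ℝ) ^ M) ^ (2 * h) := by
    rw [Finset.sum_congr rfl (g := fun _ => (C * ((M : ℕ) + 1) / (be h : ℝ) ^ M) ^ (2 * h))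
      (fun n hn => by rw [(Finset.mem_filter.1 hn).2]), Finset.sum_const, nsmul_eq_mul]
  have h2 : ((Finset.Icc (-(N : ℤ)) N).filter (fun n => Mf n = M)).card ≤
      2 * (h * Bs h ^ (M + 1)) + 1 := by
    have h3 : (Finset.Icc (-(N : ℤ)) N).filter (fun n => Mf n = M) ⊆
        Finset.Icc (-((h * Bs h ^ (M + 1) : ℕ) : ℤ)) ((h * Bs h ^ (M + 1) : ℕ) : ℤ) := by
      intro n hn
      have h4 := hM3 n
      rw [(Finset.mem_filter.1 hn).2] at h4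
      rw [Finset.mem_Icc]
      omega
    have h4 := Finset.card_le_card h3
    rw [Int.card_Icc] at h4
    omega
  have h3 : (((Finset.Icc (-(N : ℤ)) N).filter (fun n => Mf n = M)).card : ℝ) ≤
      3 * (h : ℝ) * (Bs h : ℝ) ^ (M + 1) := by
    have h5 : 1 ≤ h * Bs h ^ (M + 1) := by
      have : 0 < Bs h ^ (M + 1) := by positivity
      nlinarith
    have h6 : ((Finset.Icc (-(N : ℤ)) N).filter (fun n => Mf n = M)).card ≤
        3 * (h * Bs h ^ (M + 1)) := by omega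
    calc (((Finset.Icc (-(N : ℤ)) N).filter (fun n => Mf n = M)).card : ℝ)
        ≤ ((3 * (h * Bs h ^ (M + 1)) : ℕ) : ℝ) := by exact_mod_cast h6
      _ = 3 * (h : ℝ) * (Bs h : ℝ) ^ (M + 1) := by
          push_cast
          ring
  have hb0 : (0 : ℝ) < be h := by
    have := GE_be h hh
    linarith
  calc ∑ n ∈ (Finset.Icc (-(N : ℤ)) N).filter (fun n => Mf n = M),
      (C * ((Mf n : ℕ) + 1) / (be h : ℝ) ^ (Mf n)) ^ (2 * h) = _ := h1
    _ ≤ (3 * (h : ℝ) * (Bs h : ℝ) ^ (M + 1)) * (C * ((M : ℕ) + 1) / (be h : ℝ) ^ M) ^ (2 * h) :=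
        mul_le_mul_of_nonneg_right h3 (by positivity)
    _ ≤ _ := GA_u h hh C hC M

end Pool.Agent.OB
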