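import Pool.Agent.helper80.OB.GE

set_option autoImplicit false

namespace Pool.Agent.OB

open Finset

theorem GD (hBAS : BAS_stmt) (hWTS : WTS_stmt) (hMC : MC_stmt) (hVAR : VAR_stmt)
    (hPRE : PRE_stmt) : GD_stmt := by
  intro h ho hh
  obtain ⟨C1, hC1, hMC⟩ := hMC h ho hh
  obtain ⟨C2, hC2, hVAR⟩ := hVAR h ho hh
  refine ⟨2 * C1, by positivity, fun κ δ hκ hκ1 hδ => ?_⟩
  have hκh : 0 < κ ^ h := pow_pos hκ h
  obtain ⟨J1, hJ1⟩ := GE_tail (C2 / (C1 * κ ^ h) ^ 2) δ (by positivity) hδ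
  refine ⟨J1, fun J0 J2 l0 L hJ0 e he => ?_⟩
  refine le_trans (Finset.sum_le_sum fun J _ => ?_) (hJ1 J0 J2 hJ0)
  have hB : (0 : ℝ) < (Bs h : ℝ) ^ J := by
    have : 0 < Bs h := by
      unfold Bs be C0
      positivity
    positivity
  have e1 : pr (U h l0 L) (wt h κ)
      (fun A => 2 * C1 * κ ^ h * (Bs h : ℝ) ^ J ≤ ((RN e 0 (Bs h ^ J) A).card : ℝ)) =
      pr (U h l0 L) (wt h κ)
      (fun A => 2 * (C1 * κ ^ h * (Bs h : ℝ) ^ J) ≤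
        ((inn (RN e 0 (Bs h ^ J) (U h l0 L)) im A).card : ℝ)) := by
    refine GE_pr_congr _ _ _ _ fun A hA => ?_
    rw [GE_inn _ _ _ _ _ hA]
    have : 2 * C1 * κ ^ h * (Bs h : ℝ) ^ J = 2 * (C1 * κ ^ h * (Bs h : ℝ) ^ J) := by ring
    rw [this]
  rw [e1]
  have h1 := hMC κ hκ hκ1 l0 L e he J
  rw [← GE_Ex] at h1
  refine le_trans (hPRE (U h l0 L) (wt h κ) (GE_w hWTS h hh κ hκ hκ1 l0 L) _ _ _
    (GE_sub e 0 (Bs h ^ J) (U h l0 L)) _ _ (by positivity) h1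
    (hVAR κ hκ hκ1 l0 L e he J)) ?_
  have h2 := GE_half (be h) (GE_be h hh) J J le_rfl
  have hb : (0 : ℝ) < (be h : ℝ) ^ J := by
    have := GE_be h hh
    positivity
  calc C2 * ((J : ℝ) + 1) * (Bs h : ℝ) ^ (2 * J) / (be h : ℝ) ^ J /
        (C1 * κ ^ h * (Bs h : ℝ) ^ J) ^ 2
      = C2 / (C1 * κ ^ h) ^ 2 * (((J : ℝ) + 1) / (be h : ℝ) ^ J) := by
        rw [pow_mul' (Bs h : ℝ) 2 J]
        field_simp
    _ ≤ C2 / (C1 * κ ^ h) ^ 2 * (1 / 2) ^ J := mul_le_mul_of_nonneg_left h2 (by positivity)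

end Pool.Agent.OB
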